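import Pool.Agent.H21.CST.S1

/-! Row VNT of the board `cst`: the vanishing theorem. -/

set_option autoImplicit false

namespace Pool.CST

open MvPolynomial Pool.FOS

namespace VNTrow

/-- A derivation lowers the power of an ideal by one. -/
theorem der_pow {n : ℕ} (I : Ideal (MvPolynomial (Fin n) ℂ))
    (D : Derivation ℂ (MvPolynomial (Fin n) ℂ) (MvPolynomial (Fin n) ℂ)) (r : ℕ) :
    ∀ A ∈ I ^ (r + 1), D A ∈ I ^ r := by
  induction r with
  | zero =>
    intro A _
    rw [pow_zero, Ideal.one_eq_top]
    trivial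
  | succ r ih =>
    intro A hA
    rw [pow_succ] at hA
    refine Submodule.mul_induction_on hA ?_ ?_
    · intro x hx y hy
      rw [Derivation.leibniz, smul_eq_mul, smul_eq_mul]
      refine add_mem (Ideal.mul_mem_right _ _ hx) ?_
      have h : D x * y ∈ I ^ (r + 1) := by
        rw [pow_succ]
        exact Ideal.mul_mem_mul (ih x hx) hy
      rw [mul_comm]
      exact h
    · intro x y hx hy
      rw [map_add]
      exact add_mem hx hy

/-- The sum over the exponents. -/
noncomputable def psi {n : ℕ} (P : Fin n → ℂ) (A : MvPolynomial (Fin n) ℂ) (e : Fin n → ℕ) : ℂ :=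
  ∑ a ∈ A.support, coeff a A * (∏ j, (a j : ℂ) ^ e j) * ∏ j, P j ^ a j

theorem psi_sup {n : ℕ} (P : Fin n → ℂ) (A : MvPolynomial (Fin n) ℂ) (e : Fin n → ℕ)
    (S : Finset (Fin n →₀ ℕ)) (hS : A.support ⊆ S) :
    psi P A e = ∑ a ∈ S, coeff a A * (∏ j, (a j : ℂ) ^ e j) * ∏ j, P j ^ a j := by
  refine Finset.sum_subset hS fun a _ ha => ?_
  rw [MvPolynomial.notMem_support_iff.1 ha, zero_mul, zero_mul]

theorem coeff_theta {n : ℕ} (l : Fin n) (A : MvPolynomial (Fin n) ℂ) (a : Fin n →₀ ℕ) :
    coeff a (X l * pderiv l A) = a l * coeff a A := by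
  classical
  induction A using MvPolynomial.induction_on' with
  | monomial u c =>
    rw [pderiv_monomial, X, monomial_mul, one_mul]
    by_cases h : u l = 0
    · rw [h, Nat.cast_zero, mul_zero, monomial_zero, coeff_zero, coeff_monomial]
      split_ifs with h1
      · rw [← h1, h, Nat.cast_zero, zero_mul]
      · rw [mul_zero]
    · have h2 : Finsupp.single l 1 + (u - Finsupp.single l 1) = u := by
        rw [add_comm]
        refine tsub_add_cancel_of_le ?_
        rw [Finsupp.single_le_iff]
        omega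
      rw [h2, coeff_monomial, coeff_monomial]
      split_ifs with h1
      · rw [← h1]
        ring
      · rw [mul_zero]
  | add p q hp hq =>
    rw [map_add, mul_add, coeff_add, coeff_add, hp, hq]
    ring

theorem supp_theta {n : ℕ} (l : Fin n) (A : MvPolynomial (Fin n) ℂ) :
    (X l * pderiv l A).support ⊆ A.support := by
  intro a ha
  rw [mem_support_iff] at ha ⊢
  intro h
  apply ha
  rw [coeff_theta, h, mul_zero]

theorem psi_eval {n : ℕ} (P : Fin n → ℂ) (A : MvPolynomial (Fin n) ℂ) :
    psi P A 0 = eval P A := by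
  rw [eval_eq']
  unfold psi
  refine Finset.sum_congr rfl fun a _ => ?_
  simp

theorem psi_theta {n : ℕ} (P : Fin n → ℂ) (A : MvPolynomial (Fin n) ℂ) (e : Fin n → ℕ)
    (l : Fin n) : psi P A (e + Pi.single l 1) = psi P (X l * pderiv l A) e := by
  rw [psi_sup P _ e A.support (supp_theta l A)]
  unfold psi
  refine Finset.sum_congr rfl fun a _ => ?_
  rw [coeff_theta]
  have h : ∏ j, (a j : ℂ) ^ (e + Pi.single l 1 : Fin n → ℕ) j =
      (a l : ℂ) * ∏ j, (a j : ℂ) ^ e j := by
    have h1 : ∀ j, (a j : ℂ) ^ (e + Pi.single l 1 : Fin n → ℕ) j =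
        (a j : ℂ) ^ e j * (if j = l then (a l : ℂ) else 1) := by
      intro j
      rw [Pi.add_apply, pow_add, Pi.single_apply]
      split_ifs with hj
      · rw [hj, pow_one]
      · rw [pow_zero]
    rw [Finset.prod_congr rfl fun j _ => h1 j, Finset.prod_mul_distrib,
      Finset.prod_ite_eq' Finset.univ l, if_pos (Finset.mem_univ l), mul_comm]
  rw [h]
  ring

theorem psi_zero {n : ℕ} (P : Fin n → ℂ) : ∀ (N m : ℕ) (A : MvPolynomial (Fin n) ℂ)
    (e : Fin n → ℕ), ∑ j, e j = N → N < m → A ∈ mI P ^ m → psi P A e = 0 := by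
  intro N
  induction N with
  | zero =>
    intro m A e he hm hA
    have he0 : e = 0 := by
      funext j
      exact Finset.sum_eq_zero_iff.1 he j (Finset.mem_univ j)
    rw [he0, psi_eval]
    have h1 : A ∈ mI P := Ideal.pow_le_self (by omega) hA
    have h2 : mI P ≤ RingHom.ker (eval P) := by
      unfold mI
      rw [Ideal.span_le]
      rintro _ ⟨i, rfl⟩
      show eval P (X i - C (P i)) = 0
      simp
    exact h2 h1
  | succ N ih =>
    intro m A e he hm hA
    obtain ⟨r, rfl⟩ : ∃ r, m = r + 1 := ⟨m - 1, by omega⟩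
    obtain ⟨l, hl⟩ : ∃ l, e l ≠ 0 := by
      by_contra hc
      push Not at hc
      rw [Finset.sum_eq_zero fun j _ => hc j] at he
      omega
    have hmem : X l * pderiv l A ∈ mI P ^ r :=
      Ideal.mul_mem_left _ _ (der_pow _ (pderiv l) r A hA)
    have h1 : e = (e - Pi.single l 1) + Pi.single l 1 := by
      funext j
      rw [Pi.add_apply, Pi.sub_apply]
      by_cases hj : j = l
      · rw [hj, Pi.single_eq_same]; omega
      · rw [Pi.single_eq_of_ne hj]; omega
    rw [h1, psi_theta]
    refine ih r _ _ ?_ (by omega) hmem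
    rw [h1] at he
    simp only [Pi.add_apply, Finset.sum_add_distrib] at he
    rw [Finset.sum_pi_single' l 1 Finset.univ, if_pos (Finset.mem_univ l)] at he
    omega

/-- The conditions at a point. -/
theorem dif {n : ℕ} (m : ℕ) (P : Fin n → ℂ) (A : MvPolynomial (Fin n) ℂ) (hA : A ∈ mI P ^ m)
    (q : MvPolynomial (Fin n) ℂ) (hq : q.totalDegree < m) :
    ∑ a ∈ A.support, coeff a A * eval (fun i => (a i : ℂ)) q * ∏ j, P j ^ a j = 0 := by
  have h1 : ∀ a : Fin n →₀ ℕ, eval (fun i => (a i : ℂ)) q =
      ∑ e ∈ q.support, coeff e q * ∏ j, (a j : ℂ) ^ e j := by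
    intro a
    rw [eval_eq']
  simp only [h1, Finset.mul_sum, Finset.sum_mul]
  rw [Finset.sum_comm]
  refine Finset.sum_eq_zero fun e he => ?_
  have h2 : ∑ a ∈ A.support, coeff a A * (coeff e q * ∏ j, (a j : ℂ) ^ e j) *
      ∏ j, P j ^ a j = coeff e q * psi P A (fun j => e j) := by
    unfold psi
    rw [Finset.mul_sum]
    refine Finset.sum_congr rfl fun a _ => ?_
    ring
  rw [h2]
  have h3 : ∑ j, e j ≤ q.totalDegree := by
    have := le_totalDegree he
    rw [Finsupp.sum_fintype _ _ (fun _ => rfl)] at this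
    exact this
  rw [psi_zero P (∑ j, e j) m A (fun j => e j) rfl (by omega) hA, mul_zero]

end VNTrow

open VNTrow in
theorem t_vnt : VNTStmt := by
  intro p m s D ⟨P, hP⟩
  refine ⟨P, fun A hA hmem => ?_⟩
  classical
  have hsup : ∀ b ∈ A.support, (fun j => b j) ∈ Sx (p + 1) (D + 1) := by
    intro b hb
    have h := le_totalDegree hb
    rw [Finsupp.sum_fintype _ _ (fun _ => rfl)] at h
    unfold Sx
    rw [Finset.mem_filter, Fintype.mem_piFinset]
    have h2 : ∑ i, b i < D + 1 := by
      have : ∑ i, b i ≤ A.totalDegree := h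
      omega
    refine ⟨fun j => ?_, h2⟩
    rw [Finset.mem_range]
    refine lt_of_le_of_lt ?_ h2
    exact Finset.single_le_sum (f := fun j => b j) (fun _ _ => Nat.zero_le _) (Finset.mem_univ j)
  have hc := hP (fun a => coeff (Finsupp.equivFunOnFinite.symm a) A) ?_
  · ext b
    rw [coeff_zero]
    by_contra hb
    have h1 := hc (fun j => b j) (hsup b (mem_support_iff.2 hb))
    have h2 : (Finsupp.equivFunOnFinite.symm (fun j => b j) : Fin (p + 1) →₀ ℕ) = b := by
      ext j; rfl
    simp only [h2] at h1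
    exact hb h1
  · intro i q hq
    have h := dif m _ A (hmem i) q hq
    rw [← h]
    symm
    refine Finset.sum_bij_ne_zero (fun b _ _ => fun j => b j) ?_ ?_ ?_ ?_
    · intro b hb _
      exact hsup b hb
    · intro b _ _ b' _ _ hbb
      ext j
      exact congrFun hbb j
    · intro a ha hne
      refine ⟨Finsupp.equivFunOnFinite.symm a, ?_, ?_, ?_⟩
      · rw [mem_support_iff]
        intro h0
        apply hne
        simp only [h0, zero_mul]
      · intro h0
        apply hne
        rw [← h0]
        rfl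
      · rfl
    · intro b _ _
      have h2 : (Finsupp.equivFunOnFinite.symm (fun j => b j) : Fin (p + 1) →₀ ℕ) = b := by
        ext j; rfl
      show _ = coeff (Finsupp.equivFunOnFinite.symm (fun j => b j)) A *
        ev (fun j => b j) q * ∏ j, P i j ^ b j
      rw [h2]
      rfl

end Pool.CST
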